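import Pool.Agent.Helper53.KC.Goals

/-!
# KC, packet SUP: supersaturation
-/

namespace Pool.Agent.Helper24.KC

open Finset Pool.Agent.Helper53.KC

theorem card_sub_filter {n : ℕ} (k : ℕ) (X : Finset (Fin n)) :
    ((V n k).filter fun Y => Y ⊆ X).card = X.card.choose k := by
  rw [← card_powersetCard]
  congr 1
  ext Y
  simp only [V, mem_filter, mem_powersetCard, subset_univ, true_and]
  tauto

theorem sup : SupStmt := by
  classical
  intro n r Δ A hA hLow hr hrn
  set a : Finset (Fin n) → ℕ := fun Y => (A.filter fun X => Y ⊆ X).card with ha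
  have hcard : ∀ X ∈ A, X.card = r := fun X hX => (mem_powersetCard.mp (hA hX)).2
  -- first moment
  have h1 : ∑ Y ∈ V n (r - 1), a Y = r * A.card := by
    simp only [ha, card_filter]
    rw [sum_comm]
    have : ∀ X ∈ A, (∑ Y ∈ V n (r - 1), if Y ⊆ X then 1 else 0) = r := by
      intro X hX
      rw [← card_filter, card_sub_filter, hcard X hX]
      obtain ⟨m, rfl⟩ : ∃ m, r = m + 1 := ⟨r - 1, by omega⟩
      simp
    rw [sum_congr rfl this, sum_const, smul_eq_mul, mul_comm]
  -- second moment
  have h2 : ∑ Y ∈ V n (r - 1), a Y ^ 2 ≤ A.card * (Δ + r) := by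
    have e1 : ∀ Y, a Y ^ 2 = ∑ X ∈ A, ∑ X' ∈ A, if Y ⊆ X ∩ X' then 1 else 0 := by
      intro Y
      have : a Y = ∑ X ∈ A, if Y ⊆ X then 1 else 0 := by simp only [ha, card_filter]
      rw [sq, this, sum_mul_sum]
      apply sum_congr rfl
      intro X _
      apply sum_congr rfl
      intro X' _
      by_cases h : Y ⊆ X
      · by_cases h' : Y ⊆ X'
        · simp [h, h', subset_inter_iff]
        · simp [h, h', subset_inter_iff]
      · simp [h, subset_inter_iff]
    rw [sum_congr rfl (fun Y _ => e1 Y), sum_comm]
    have e2 : ∀ X ∈ A, (∑ Y ∈ V n (r - 1), ∑ X' ∈ A, if Y ⊆ X ∩ X' then 1 else 0) ≤ Δ + r := by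
      intro X hX
      rw [sum_comm]
      have e3 : ∀ X' ∈ A, (∑ Y ∈ V n (r - 1), if Y ⊆ X ∩ X' then 1 else 0) ≤
          (if X' = X then r else 0) + if adj X X' then 1 else 0 := by
        intro X' hX'
        rw [← card_filter, card_sub_filter]
        by_cases h : X' = X
        · subst h
          rw [inter_self, hcard X' hX', if_pos rfl]
          obtain ⟨m, rfl⟩ : ∃ m, r = m + 1 := ⟨r - 1, by omega⟩
          simp
        · rw [if_neg h, zero_add]
          have h3 : (X ∩ X').card < r := by
            rw [← hcard X hX]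
            apply card_lt_card
            rw [Finset.ssubset_iff_subset_ne]
            refine ⟨inter_subset_left, fun h4 => h ?_⟩
            have h5 : X ⊆ X' := by
              rw [← h4]
              exact inter_subset_right
            exact (eq_of_subset_of_card_le h5 (by rw [hcard X hX, hcard X' hX'])).symm
          by_cases h4 : (X ∩ X').card = r - 1
          · have h5 : adj X X' := by
              refine ⟨by rw [hcard X hX, hcard X' hX'], ?_⟩
              rw [h4, hcard X hX]
              omega
            rw [if_pos h5, h4, Nat.choose_self]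
          · rw [Nat.choose_eq_zero_of_lt (by omega)]
            exact Nat.zero_le _
      refine (sum_le_sum e3).trans ?_
      rw [sum_add_distrib, sum_ite_eq' A X, if_pos hX, ← card_filter]
      have h6 := hLow X hX (A.filter fun X' => adj X X') (filter_subset _ _)
        (fun w hw => (mem_filter.mp hw).2)
      omega
    refine (sum_le_sum e2).trans ?_
    rw [sum_const, smul_eq_mul]
  -- Cauchy-Schwarz
  have h3 : (r * A.card) ^ 2 ≤ n.choose (r - 1) * (A.card * (Δ + r)) := by
    rw [← h1]
    refine (sq_sum_le_card_mul_sum_sq (s := V n (r - 1)) (f := a)).trans ?_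
    have h4 : (V n (r - 1)).card = n.choose (r - 1) := by
      simp [V]
    rw [h4]
    exact Nat.mul_le_mul_left _ h2
  rcases Nat.eq_zero_or_pos A.card with h0 | h0
  · rw [h0, zero_mul]
    exact Nat.zero_le _
  have h5 : n.choose r * r = n.choose (r - 1) * (n - r + 1) := by
    have := Nat.choose_succ_right_eq n (r - 1)
    rw [show r - 1 + 1 = r by omega, show n - (r - 1) = n - r + 1 by omega] at this
    exact this
  have h6 : r * r * A.card ≤ n.choose (r - 1) * (Δ + r) := by
    have h7 : A.card * (r * r * A.card) ≤ A.card * (n.choose (r - 1) * (Δ + r)) := by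
      calc A.card * (r * r * A.card) = (r * A.card) ^ 2 := by ring
        _ ≤ n.choose (r - 1) * (A.card * (Δ + r)) := h3
        _ = A.card * (n.choose (r - 1) * (Δ + r)) := by ring
    exact Nat.le_of_mul_le_mul_left h7 h0
  have h8 : r * (A.card * (r * (n - r + 1))) ≤ r * (n.choose r * (Δ + r)) := by
    calc r * (A.card * (r * (n - r + 1))) = (r * r * A.card) * (n - r + 1) := by ring
      _ ≤ (n.choose (r - 1) * (Δ + r)) * (n - r + 1) := Nat.mul_le_mul_right _ h6
      _ = (n.choose (r - 1) * (n - r + 1)) * (Δ + r) := by ring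
      _ = (n.choose r * r) * (Δ + r) := by rw [h5]
      _ = r * (n.choose r * (Δ + r)) := by ring
  exact Nat.le_of_mul_le_mul_left h8 (by omega)

end Pool.Agent.Helper24.KC
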